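import Mathlib
import Pool.Agent.H473R4.BC
import Pool.Agent.H447R2.ML.Law

set_option autoImplicit false

/-!
# Fermat numbers: probability and finiteness for almost every base and amplitude

For real `x > 1`, `β > 0` and `m ≥ 0` let `W x β m` be the `2 ^ m`-rough part (the product, with
multiplicity, of the prime factors larger than `2 ^ m`) of `⌊β x ^ (2 ^ m)⌋ + 1`.  At
`(x, β) = (2, 1)` this is the Fermat number `F_m` itself, and at `(a, 1)`, `a` even, the generalized
Fermat number `a ^ (2 ^ m) + 1`.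
-/

namespace Pool.Agent.Results.MP_37e5fa_nt.MetricLaw

open Filter Topology MeasureTheory

/-- The product, with multiplicity, of the prime factors of `n` that are larger than `y`. -/
def roughPart (y n : ℕ) : ℕ := (n.primeFactorsList.filter (fun r => y < r)).prod

/-- The `2 ^ m`-rough part of `⌊β x ^ (2 ^ m)⌋ + 1`. -/
noncomputable def W (x β : ℝ) (m : ℕ) : ℕ := roughPart (2 ^ m) (⌊β * x ^ (2 ^ m)⌋₊ + 1)

/-- The special points. -/
lemma W_even {a : ℕ} (ha : Even a) (m : ℕ) : W a 1 m = a ^ (2 ^ m) + 1 := by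
  unfold W
  have h1 : ⌊(1 : ℝ) * (a : ℝ) ^ (2 ^ m)⌋₊ = a ^ (2 ^ m) := by
    rw [one_mul]
    exact_mod_cast Nat.floor_natCast (R := ℝ) (a ^ (2 ^ m))
  rw [h1]
  refine Pool.Agent.H447R2.ML.roughPart_eq_self (Nat.succ_ne_zero _) fun q hq hd => ?_
  have hq2 : q ≠ 2 := by
    rintro rfl
    have h2 : Even (a ^ (2 ^ m)) := ha.pow_of_ne_zero (by positivity)
    have h3 : Even (a ^ (2 ^ m) + 1) := even_iff_two_dvd.2 hd
    exact absurd h3 (Nat.not_even_iff_odd.2 h2.add_one)
  obtain ⟨k, hk⟩ := Nat.pow_pow_add_primeFactors_one_lt hq hq2 hd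
  have hk0 : 1 ≤ k := by
    rcases Nat.eq_zero_or_pos k with h | h
    · rw [h] at hk
      have := hq.one_lt
      omega
    · exact h
  have h4 : 2 ^ m < 2 ^ (m + 1) := Nat.pow_lt_pow_right (by norm_num) (by omega)
  calc 2 ^ m < 2 ^ (m + 1) := h4
    _ ≤ k * 2 ^ (m + 1) := Nat.le_mul_of_pos_left _ hk0
    _ < q := by omega

lemma floor_succ {v : ℝ} (hv : 0 ≤ v) : ⌊v + 1⌋₊ = ⌊v⌋₊ + 1 := by
  exact_mod_cast Nat.floor_add_natCast hv 1

/-- The indicator of `W x (e ^ u) m` being prime. -/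
lemma fl_eq {x : ℝ} (hx : 1 < x) (u : ℝ) (m : ℕ) :
    Pool.Agent.H447R2.ML.fl (fun _ => 1) (2 ^ m) (((2 ^ m : ℕ) : ℝ) * Real.log x + u) =
      if (W x (Real.exp u) m).Prime then 1 else 0 := by
  unfold Pool.Agent.H447R2.ML.fl W
  have e : Real.exp (((2 ^ m : ℕ) : ℝ) * Real.log x + u) = Real.exp u * x ^ (2 ^ m) := by
    rw [Real.exp_add, Real.exp_nat_mul, Real.exp_log (by linarith), mul_comm]
  rw [e, floor_succ (by positivity)]
  rfl

/-- The summable majorant. -/
lemma summable_maj (K : ℝ) :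
    Summable fun m : ℕ => K * (Real.log ((2 ^ m : ℕ) : ℝ) / ((2 ^ m : ℕ) : ℝ)) := by
  refine Summable.mul_left K ?_
  have h := summable_pow_mul_geometric_of_norm_lt_one (R := ℝ) 1 (r := 1 / 2)
    (by rw [Real.norm_eq_abs, abs_of_pos (by norm_num)]; norm_num)
  refine (h.mul_left (Real.log 2)).congr fun m => ?_
  push_cast
  rw [Real.log_pow, pow_one, one_div, inv_pow]
  field_simp

lemma pow_tendsto : Tendsto (fun m : ℕ => 2 ^ m) atTop atTop :=
  tendsto_pow_atTop_atTop_of_one_lt (by norm_num)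

/-- The probability that `W x (e ^ u) m` is prime, for `u` in a window. -/
lemma prob {x : ℝ} (hx : 1 < x) {s t : ℝ} (hst : s < t) :
    Tendsto (fun m : ℕ => volume.real {u : ℝ | u ∈ Set.Ioc s t ∧ (W x (Real.exp u) m).Prime} *
      (2 ^ m / m)) atTop
      (𝓝 ((t - s) * Real.exp Real.eulerMascheroniConstant * Real.log 2 / Real.log x)) := by
  have hlx : 0 < Real.log x := Real.log_pos hx
  obtain ⟨k, hk⟩ := exists_nat_gt (t - s)
  have h := Pool.Agent.H473R4.asymp_all (g := fun _ => 1) (κ := 0) (C := 1) le_rfl one_pos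
    (by intro p; simp) hlx (y := fun p => (p : ℝ) * Real.log x) (by
      refine tendsto_const_nhds.congr' ?_
      filter_upwards [eventually_ge_atTop 1] with p hp
      have : (p : ℝ) ≠ 0 := by positivity
      field_simp) k s t hst (by linarith)
  have h2 := (h.comp pow_tendsto).const_mul (Real.log 2)
  have e : Real.log 2 * (Real.exp Real.eulerMascheroniConstant * (t - s) / Real.log x) =
      (t - s) * Real.exp Real.eulerMascheroniConstant * Real.log 2 / Real.log x := by ring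
  rw [e] at h2
  refine h2.congr' ?_
  filter_upwards [eventually_ge_atTop 1] with m hm
  have hl2 : Real.log 2 ≠ 0 := (Real.log_pos one_lt_two).ne'
  have hm0 : (m : ℝ) ≠ 0 := by positivity
  have hmeas : MeasurableSet {u : ℝ | (W x (Real.exp u) m).Prime} := by
    have h1 : Measurable fun u : ℝ =>
        Pool.Agent.H447R2.ML.fl (fun _ => 1) (2 ^ m) (((2 ^ m : ℕ) : ℝ) * Real.log x + u) :=
      (Pool.Agent.H447R2.ML.measurable_fl _ _).comp (measurable_const_add _)
    have h2 := h1 (measurableSet_singleton 1)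
    convert h2 using 1
    ext u
    simp only [Set.mem_ofPred_eq, Set.mem_preimage, Set.mem_singleton_iff, fl_eq hx]
    split_ifs with h3 <;> simp [h3]
  have hI : ∫ u in Set.Ioc (((2 ^ m : ℕ) : ℝ) * Real.log x + s) (((2 ^ m : ℕ) : ℝ) * Real.log x + t),
      Pool.Agent.H447R2.ML.fl (fun _ => 1) (2 ^ m) u =
      volume.real {u : ℝ | u ∈ Set.Ioc s t ∧ (W x (Real.exp u) m).Prime} := by
    rw [← intervalIntegral.integral_of_le (by linarith), ← intervalIntegral.integral_comp_add_left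
      (fun v => Pool.Agent.H447R2.ML.fl (fun _ => 1) (2 ^ m) v) (((2 ^ m : ℕ) : ℝ) * Real.log x),
      intervalIntegral.integral_of_le hst.le]
    have h3 : ∀ u : ℝ, Pool.Agent.H447R2.ML.fl (fun _ => 1) (2 ^ m)
        (((2 ^ m : ℕ) : ℝ) * Real.log x + u) =
        {u : ℝ | (W x (Real.exp u) m).Prime}.indicator 1 u := by
      intro u
      rw [fl_eq hx, Set.indicator_apply]
      rfl
    simp only [h3]
    rw [integral_indicator_one hmeas, measureReal_restrict_apply hmeas, Set.inter_comm]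
    rfl
  simp only [Function.comp]
  rw [hI]
  push_cast
  rw [Real.log_pow]
  field_simp

/-- Almost every amplitude. -/
lemma amplitude {x : ℝ} (hx : 1 < x) :
    ∀ᵐ β : ℝ, 0 < β → {m : ℕ | (W x β m).Prime}.Finite := by
  have hlx : 0 < Real.log x := Real.log_pos hx
  have hgood := Pool.Agent.H447R2.ML.good_fl (g := fun _ => 1) (κ := 0) (C := 1) le_rfl one_pos
    (by intro p; simp)
  obtain ⟨K, hK, hshort⟩ := hgood.short (Real.log x / 2) (by positivity)
  have hwin : ∀ n : ℤ, ∀ᵐ u : ℝ, u ∈ Set.Ioc (n : ℝ) (n + 1) →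
      ∀ᶠ m : ℕ in atTop, (if (W x (Real.exp u) m).Prime then (1 : ℝ) else 0) = 0 := by
    intro n
    refine Pool.Agent.H473R4.bc0 (F := fun m u => if (W x (Real.exp u) m).Prime then (1 : ℝ) else 0)
      ?_ ?_ (summable_maj K) ?_
    · intro m
      have h1 : Measurable fun u : ℝ =>
          Pool.Agent.H447R2.ML.fl (fun _ => 1) (2 ^ m) (((2 ^ m : ℕ) : ℝ) * Real.log x + u) :=
        (Pool.Agent.H447R2.ML.measurable_fl _ _).comp (measurable_const_add _)
      simpa only [fl_eq hx] using h1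
    · intro m u
      split_ifs
      · exact Or.inr rfl
      · exact Or.inl rfl
    · have hlarge : ∀ᶠ p : ℕ in atTop, 2 * |(n : ℝ)| / Real.log x ≤ p :=
        tendsto_natCast_atTop_atTop.eventually_ge_atTop _
      filter_upwards [pow_tendsto.eventually (hshort.and (hlarge.and (eventually_ge_atTop 1)))]
        with m hm
      obtain ⟨h1, h2, h3⟩ := hm
      have h3' : (1 : ℝ) ≤ ((2 ^ m : ℕ) : ℝ) := by exact_mod_cast h3
      have h4 : Real.log x / 2 * ((2 ^ m : ℕ) : ℝ) ≤ ((2 ^ m : ℕ) : ℝ) * Real.log x + n := by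
        rw [div_le_iff₀ hlx] at h2
        have := neg_abs_le (n : ℝ)
        nlinarith
      have h5 := h1 _ h4 1 (by rw [div_le_one (by linarith)]; exact h3') le_rfl
      rw [mul_one, add_assoc] at h5
      rw [← intervalIntegral.integral_of_le (by linarith), ← intervalIntegral.integral_comp_add_left
        (fun v => Pool.Agent.H447R2.ML.fl (fun _ => 1) (2 ^ m) v) (((2 ^ m : ℕ) : ℝ) * Real.log x),
        intervalIntegral.integral_of_le (by linarith)] at h5
      simp only [fl_eq hx] at h5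
      exact h5
  have hall : ∀ᵐ u : ℝ, {m : ℕ | (W x (Real.exp u) m).Prime}.Finite := by
    filter_upwards [ae_all_iff.2 hwin] with u hu
    have h1 : u ∈ Set.Ioc (((⌈u⌉ - 1 : ℤ)) : ℝ) (((⌈u⌉ - 1 : ℤ) : ℝ) + 1) := by
      push_cast
      constructor
      · linarith [Int.ceil_lt_add_one u]
      · linarith [Int.le_ceil u]
    obtain ⟨M, hM⟩ := eventually_atTop.1 (hu _ h1)
    refine (Set.finite_lt_nat M).subset fun m hm => ?_
    by_contra hlt
    have h2 := hM m (not_lt.1 hlt)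
    have hm' : (W x (Real.exp u) m).Prime := hm
    rw [if_pos hm'] at h2
    exact one_ne_zero h2
  exact Pool.Agent.H447R2.ML.ae_exp1 (P := fun β => {m : ℕ | (W x β m).Prime}.Finite) hall

/-- Almost every base. -/
lemma base {β : ℝ} (hβ : 1 ≤ β) :
    ∀ᵐ x : ℝ, 1 < x → {m : ℕ | (W x β m).Prime}.Finite := by
  have hβ0 : 0 < β := by linarith
  set y : ℕ → ℝ → ℝ := fun p t => Real.log (Real.exp (p * t) + β⁻¹) + Real.log β with hy
  have hym : ∀ p, Measurable (y p) := fun p =>
    (Real.measurable_log.comp ((Real.measurable_exp.comp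
      (measurable_const_mul (p : ℝ))).add_const _)).add_const _
  have hβ1 : |β⁻¹| ≤ 1 := by
    rw [abs_of_pos (by positivity)]
    exact inv_le_one_of_one_le₀ hβ
  have hfam := Pool.Agent.H447R2.ML.fam_of (ε := β⁻¹) hβ1 (H := fun _ => Real.log β)
    (H' := fun _ => 0) (fun t _ => hasDerivAt_const t _) continuousOn_const (y := y)
    (fun p _ t _ => rfl)
  have hwin : ∀ a b : ℚ, 0 < (a : ℝ) → (a : ℝ) < b → ∀ᵐ t : ℝ, t ∈ Set.Ioc (a : ℝ) b →
      ∀ᶠ m : ℕ in atTop, Pool.Agent.H305R2.ff (2 ^ m) (y (2 ^ m) t) = 0 := by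
    intro a b ha hab
    obtain ⟨D, hD, hev⟩ := hfam a b ha hab
    obtain ⟨K, hK, P, hP⟩ := Pool.Agent.H447R2.ML.single_upper ha hD
    refine Pool.Agent.H473R4.bc0 (F := fun m t => Pool.Agent.H305R2.ff (2 ^ m) (y (2 ^ m) t))
      ?_ ?_ (summable_maj (K * ((b - a) + 1))) ?_
    · intro m
      exact (Pool.Agent.H305R2.measurable_ff _).comp (hym _)
    · intro m t
      simp only [Pool.Agent.H305R2.ff]
      split_ifs
      · exact Or.inr rfl
      · exact Or.inl rfl
    · filter_upwards [pow_tendsto.eventually (hev.and (eventually_ge_atTop (max P 1)))] with m hm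
      obtain ⟨h1, h2⟩ := hm
      have h3' : (1 : ℝ) ≤ ((2 ^ m : ℕ) : ℝ) := by
        exact_mod_cast (le_max_right P 1).trans h2
      refine (hP (2 ^ m) ((le_max_left P 1).trans h2) b _ _ h1 a b le_rfl hab.le le_rfl).trans ?_
      have h4 : 0 ≤ Real.log ((2 ^ m : ℕ) : ℝ) / ((2 ^ m : ℕ) : ℝ) :=
        div_nonneg (Real.log_nonneg h3') (by linarith)
      have h5 : 1 / ((2 ^ m : ℕ) : ℝ) ≤ 1 := by rw [div_le_one (by linarith)]; exact h3'
      gcongr
  -- the values are not integers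
  have hint : ∀ᵐ t : ℝ, ∀ m : ℕ, ∀ n : ℕ, β * Real.exp t ^ (2 ^ m) + 1 ≠ n := by
    rw [ae_all_iff]
    intro m
    have h0 : volume {t : ℝ | ∃ n : ℕ, β * Real.exp t ^ (2 ^ m) + 1 = n} = 0 := by
      refine Set.Countable.measure_zero ?_ volume
      refine (Set.countable_range fun n : ℕ =>
        Real.log (((n : ℝ) - 1) / β) / ((2 ^ m : ℕ) : ℝ)).mono ?_
      rintro t ⟨n, hn⟩
      refine ⟨n, ?_⟩
      have h1 : ((n : ℝ) - 1) / β = Real.exp (((2 ^ m : ℕ) : ℝ) * t) := by
        rw [← hn, add_sub_cancel_right, mul_div_cancel_left₀ _ hβ0.ne', Real.exp_nat_mul]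
      simp only
      rw [h1, Real.log_exp]
      have h2 : ((2 ^ m : ℕ) : ℝ) ≠ 0 := by positivity
      field_simp
    have h1 : ∀ᵐ t : ℝ, ¬ ∃ n : ℕ, β * Real.exp t ^ (2 ^ m) + 1 = n := by
      rw [ae_iff]
      simpa using h0
    filter_upwards [h1] with t ht n hn
    exact ht ⟨n, hn⟩
  have hwin' : ∀ᵐ t : ℝ, ∀ a b : ℚ, 0 < (a : ℝ) → (a : ℝ) < b → t ∈ Set.Ioc (a : ℝ) b →
      ∀ᶠ m : ℕ in atTop, Pool.Agent.H305R2.ff (2 ^ m) (y (2 ^ m) t) = 0 := by
    simp only [ae_all_iff]
    exact hwin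
  have hall : ∀ᵐ t : ℝ, 1 < Real.exp t → {m : ℕ | (W (Real.exp t) β m).Prime}.Finite := by
    filter_upwards [hwin', hint] with t ht1 ht2 ht
    have ht0 : 0 < t := Real.one_lt_exp_iff.1 ht
    obtain ⟨a, ha1, ha2⟩ := exists_rat_btwn ht0
    obtain ⟨b, hb1, _⟩ := exists_rat_btwn (show t < t + 1 by linarith)
    obtain ⟨M, hM⟩ := eventually_atTop.1 (ht1 a b ha1 (ha2.trans hb1) ⟨ha2, hb1.le⟩)
    refine (Set.finite_lt_nat M).subset fun m hm => ?_
    by_contra hlt
    have h2 := hM m (not_lt.1 hlt)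
    have hv : 0 < β * Real.exp t ^ (2 ^ m) + 1 := by positivity
    have e : y (2 ^ m) t = Real.log (β * Real.exp t ^ (2 ^ m) + 1) := by
      simp only [hy]
      rw [← Real.log_mul (by positivity) hβ0.ne', Real.exp_nat_mul]
      congr 1
      field_simp
    rw [e, Pool.Agent.H447R2.ML.ff_eq_floor hv (ht2 m), floor_succ (by positivity)] at h2
    have h3 : (Pool.Agent.H305R2.roughPart (2 ^ m) (⌊β * Real.exp t ^ (2 ^ m)⌋₊ + 1)).Prime := hm
    rw [if_pos h3] at h2
    exact one_ne_zero h2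
  have h4 := Pool.Agent.H447R2.ML.ae_exp1
    (P := fun x => 1 < x → {m : ℕ | (W x β m).Prime}.Finite) hall
  filter_upwards [h4] with x hx hx1
  exact hx (by linarith) hx1

theorem result :
    -- the Fermat numbers and the generalized Fermat numbers of even base
    (∀ m : ℕ, W 2 1 m = 2 ^ (2 ^ m) + 1) ∧
    (∀ a m : ℕ, Even a → W a 1 m = a ^ (2 ^ m) + 1) ∧
    -- the probability that `W x β m` is prime
    (∀ x : ℝ, 1 < x → ∀ s t : ℝ, s < t → Tendsto (fun m : ℕ =>
      volume.real {u : ℝ | u ∈ Set.Ioc s t ∧ (W x (Real.exp u) m).Prime} * (2 ^ m / m)) atTop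
      (𝓝 ((t - s) * Real.exp Real.eulerMascheroniConstant * Real.log 2 / Real.log x))) ∧
    -- every base, almost every amplitude
    (∀ x : ℝ, 1 < x → ∀ᵐ β : ℝ, 0 < β → {m : ℕ | (W x β m).Prime}.Finite) ∧
    -- every amplitude `β ≥ 1`, almost every base
    (∀ β : ℝ, 1 ≤ β → ∀ᵐ x : ℝ, 1 < x → {m : ℕ | (W x β m).Prime}.Finite) := by
  refine ⟨fun m => ?_, fun a m ha => W_even ha m, fun x hx s t hst => prob hx hst,
    fun x hx => amplitude hx, fun β hβ => base hβ⟩
  have h := W_even (a := 2) even_two m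
  rwa [Nat.cast_ofNat] at h

end Pool.Agent.Results.MP_37e5fa_nt.MetricLaw
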